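import Pool.Agent.X125.Asp.Shadow

/-! Average shadowing with full measure center: mixing or positive entropy. -/

set_option autoImplicit false
open Filter Topology Set MeasureTheory Pool.Agent.X125.Asp

namespace Pool.Agent.Results.MP_090ff9_an.MixingOrPositiveEntropy

theorem pos_of_hp {X : Type*} [MetricSpace X] [CompactSpace X] [MeasurableSpace X] [BorelSpace X]
    [Nontrivial X] {f : X → X} (hf : Continuous f) (hc : measureCenter f = univ)
    (h : ∀ ε > 0, ∃ L0 : ℕ, ∀ L ≥ L0, 0 < L → ∀ a : Bool → X, HP f L a ε) :
    0 < Dynamics.coverEntropy f (univ : Set X) := by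
  obtain ⟨x, y, c, hc0, hsep⟩ := exists_separated hf hc
  obtain ⟨L0, hL0⟩ := h (c / 40) (by positivity)
  obtain ⟨L, hL, hcL⟩ := hsep (L0 + 1)
  refine entropy_pos f L (fun b => if b then x else y) c (by omega) hc0 ?_
    (hL0 L (by omega) (by omega) _)
  simpa using hcL

/-- A system with the average shadowing property, the asymptotic average shadowing property or the
almost specification property and with full measure center is topologically mixing or has positive
topological entropy; moreover the entropy is positive as soon as the space has two points. -/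
theorem result {X : Type*} [MetricSpace X] [CompactSpace X] [MeasurableSpace X] [BorelSpace X]
    (f : X → X) (hf : Continuous f) (hP : ASP f ∨ AASP f ∨ AlmostSpec f)
    (hc : measureCenter f = univ) :
    (TopMixing f ∨ 0 < Dynamics.coverEntropy f (univ : Set X)) ∧
      (Nontrivial X → 0 < Dynamics.coverEntropy f (univ : Set X)) := by
  have hmain : Nontrivial X → 0 < Dynamics.coverEntropy f (univ : Set X) := by
    intro _
    apply pos_of_hp hf hc
    rcases hP with h | h | h
    · intro ε hε
      obtain ⟨L0, hL0⟩ := cp_of_asp h ε hε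
      exact ⟨L0, fun L hL hLpos a => hp_of_cp hf L hLpos a ε fun ω => hL0 L hL hLpos a ω⟩
    · intro ε hε
      obtain ⟨L0, hL0⟩ := cp_of_aasp hf h ε hε
      exact ⟨L0, fun L hL hLpos a => hp_of_cp hf L hLpos a ε fun ω => hL0 L hL hLpos a ω⟩
    · exact hp_of_almostSpec h
  refine ⟨?_, hmain⟩
  rcases subsingleton_or_nontrivial X with hs | hn
  · left
    intro U V _ _ hU hV
    obtain ⟨x, hx⟩ := hU
    obtain ⟨y, hy⟩ := hV
    refine ⟨0, fun n _ => ⟨y, ⟨x, hx, Subsingleton.elim _ _⟩, hy⟩⟩
  · exact Or.inr (hmain hn)

end Pool.Agent.Results.MP_090ff9_an.MixingOrPositiveEntropy
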